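import Mathlib
import Pool.Agent.R366.HE.Main

set_option autoImplicit false

/-!
# Values of an arbitrary polynomial among the values of forms with bounded coefficients

Generalises `Pool.Agent.R366.HE.Sq` (squares) to the values of any integral polynomial of degree
between `2` and `m`.
-/

namespace Pool.Agent.R219.PV

open Polynomial
open scoped Classical
open Pool.Agent.R366.HE (bin bin_sub short bin_le count_value sz one_le_sz)

/-- a translate difference of a polynomial of degree at least two is not constant -/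
lemma shift_ne (G : ℤ[X]) (hG : 2 ≤ G.natDegree) (u b : ℤ) (hu : u ≠ 0) :
    G.comp (X + C u) - G - C b ≠ 0 := by
  intro h0
  have h1 : ∀ y : ℤ, G.eval (y + u) = G.eval y + b := by
    intro y
    have := congrArg (Polynomial.eval y) h0
    simp only [eval_sub, eval_comp, eval_add, eval_X, eval_C, eval_zero] at this
    linarith
  have h2 : ∀ j : ℕ, G.eval ((j : ℤ) * u) = G.eval 0 + j * b := by
    intro j
    induction j with
    | zero => simp
    | succ j ih =>
      have := h1 ((j : ℤ) * u)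
      push_cast
      rw [add_mul, one_mul, this, ih]
      ring
  have h3 : G.comp (C u * X) - (C (G.eval 0) + C b * X) = 0 := by
    apply Polynomial.eq_zero_of_infinite_isRoot
    refine Set.Infinite.mono ?_ (Set.infinite_range_of_injective (Nat.cast_injective (R := ℤ)))
    rintro _ ⟨j, rfl⟩
    change IsRoot _ _
    simp only [IsRoot.def, eval_sub, eval_comp, eval_add, eval_mul, eval_X, eval_C]
    rw [mul_comm u, h2]
    ring
  have h4 : (G.comp (C u * X)).natDegree = G.natDegree := by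
    rw [natDegree_comp, natDegree_C_mul_X u hu, mul_one]
  have h5 : (G.comp (C u * X)).natDegree ≤ 1 := by
    rw [sub_eq_zero.1 h3]
    compute_degree
  omega

lemma prod_gt (z : ℂ) (c : ℝ) (hc : 0 ≤ c) (s : Multiset ℂ) (h : ∀ α ∈ s, c < ‖z - α‖) (hs : s ≠ 0) :
    c ^ (Multiset.card s) < ‖(s.map (fun α => z - α)).prod‖ := by
  induction s using Multiset.induction_on with
  | empty => exact absurd rfl hs
  | cons a t ih =>
    have ha := h a (Multiset.mem_cons_self a t)
    rw [Multiset.map_cons, Multiset.prod_cons, norm_mul, Multiset.card_cons, pow_succ, mul_comm (c ^ _)]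
    by_cases ht : t = 0
    · subst ht
      simpa using ha
    · have h1 := ih (fun α hα => h α (Multiset.mem_cons_of_mem hα)) ht
      exact mul_lt_mul'' ha h1 hc (pow_nonneg hc _)

lemma card_near (a c : ℝ) (hc : 0 ≤ c) : ((Finset.Icc ⌈a - c⌉ ⌊a + c⌋).card : ℝ) ≤ 2 * c + 1 := by
  rw [Int.card_Icc]
  by_cases h : (⌊a + c⌋ + 1 - ⌈a - c⌉) ≤ 0
  · rw [Int.toNat_of_nonpos h]
    push_cast
    linarith
  · have h1 : (((⌊a + c⌋ + 1 - ⌈a - c⌉).toNat : ℕ) : ℝ) = ((⌊a + c⌋ + 1 - ⌈a - c⌉ : ℤ) : ℝ) := by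
      rw [← Int.toNat_of_nonneg (by omega : 0 ≤ ⌊a + c⌋ + 1 - ⌈a - c⌉)]
      norm_cast
    rw [h1]
    push_cast
    have h2 := Int.floor_le (a + c)
    have h3 := Int.le_ceil (a - c)
    linarith

/-- the number of integers at which a polynomial is small -/
lemma card_poly (G : ℤ[X]) (m : ℕ) (hG : 2 ≤ G.natDegree) (hm : G.natDegree ≤ m) {L : ℝ} (hL : 1 ≤ L)
    (Y : Finset ℤ) (hY : ∀ y ∈ Y, |((G.eval y : ℤ) : ℝ)| ≤ L) :
    (Y.card : ℝ) ≤ m * (2 * Real.sqrt L + 1) := by
  set P : ℂ[X] := G.map (Int.castRingHom ℂ) with hP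
  have hinj : Function.Injective (Int.castRingHom ℂ) := by
    intro a b h
    simpa using h
  have hdeg : P.natDegree = G.natDegree := natDegree_map_eq_of_injective hinj G
  have hcard : Multiset.card P.roots = P.natDegree := by
    exact IsAlgClosed.card_roots_eq_natDegree
  have hlc : 1 ≤ ‖P.leadingCoeff‖ := by
    rw [hP, leadingCoeff_map_of_injective hinj]
    have h1 : G.leadingCoeff ≠ 0 := by
      intro h
      rw [leadingCoeff_eq_zero] at h
      rw [h, natDegree_zero] at hG
      omega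
    have h2 : (1 : ℤ) ≤ |G.leadingCoeff| := Int.one_le_abs h1
    simp only [Int.coe_castRingHom, Complex.norm_intCast]
    exact_mod_cast h2
  have hsq : 1 ≤ Real.sqrt L := by rwa [Real.one_le_sqrt]
  have hsq2 : Real.sqrt L ^ 2 = L := Real.sq_sqrt (by linarith)
  have hroots : ∀ y ∈ Y, ∃ α ∈ P.roots, ‖(y : ℂ) - α‖ ≤ Real.sqrt L := by
    intro y hy
    by_contra hcon
    push Not at hcon
    have hne : P.roots ≠ 0 := by
      intro h
      rw [h, Multiset.card_zero] at hcard
      omega
    have h1 := prod_gt y (Real.sqrt L) (Real.sqrt_nonneg _) P.roots hcon hne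
    have h2 : P.eval (y : ℂ) = P.leadingCoeff * (P.roots.map (fun α => (y : ℂ) - α)).prod := by
      exact (IsAlgClosed.splits P).eval_eq_prod_roots _
    have h3 : P.eval (y : ℂ) = ((G.eval y : ℤ) : ℂ) := by
      rw [hP, eval_intCast_map]
      simp
    have h4 : ‖P.eval (y : ℂ)‖ ≤ L := by
      rw [h3, Complex.norm_intCast]
      exact_mod_cast hY y hy
    rw [h2, norm_mul, hcard, hdeg] at *
    have h5 : L ≤ Real.sqrt L ^ G.natDegree := by
      calc L = Real.sqrt L ^ 2 := hsq2.symm
        _ ≤ _ := pow_le_pow_right₀ hsq hG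
    have h6 : L < ‖(P.roots.map (fun α => (y : ℂ) - α)).prod‖ := lt_of_le_of_lt h5 h1
    have h7 : ‖(P.roots.map (fun α => (y : ℂ) - α)).prod‖ ≤
        ‖P.leadingCoeff‖ * ‖(P.roots.map (fun α => (y : ℂ) - α)).prod‖ :=
      le_mul_of_one_le_left (norm_nonneg _) hlc
    linarith
  have hsub : Y ⊆ P.roots.toFinset.biUnion
      (fun α => Finset.Icc ⌈α.re - Real.sqrt L⌉ ⌊α.re + Real.sqrt L⌋) := by
    intro y hy
    obtain ⟨α, hα, h1⟩ := hroots y hy
    rw [Finset.mem_biUnion]
    refine ⟨α, Multiset.mem_toFinset.2 hα, ?_⟩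
    have h2 : |(y : ℝ) - α.re| ≤ Real.sqrt L := by
      have := Complex.abs_re_le_norm ((y : ℂ) - α)
      simp only [Complex.sub_re, Complex.intCast_re] at this
      exact this.trans h1
    rw [abs_le] at h2
    rw [Finset.mem_Icc, Int.ceil_le, Int.le_floor]
    constructor <;> linarith [h2.1, h2.2]
  have h1 : (Y.card : ℝ) ≤ ∑ α ∈ P.roots.toFinset,
      ((Finset.Icc ⌈α.re - Real.sqrt L⌉ ⌊α.re + Real.sqrt L⌋).card : ℝ) := by
    exact_mod_cast (Finset.card_le_card hsub).trans Finset.card_biUnion_le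
  have h2 : (P.roots.toFinset.card : ℝ) ≤ m := by
    have : P.roots.toFinset.card ≤ m := by
      refine (Multiset.toFinset_card_le _).trans ?_
      omega
    exact_mod_cast this
  calc (Y.card : ℝ) ≤ ∑ α ∈ P.roots.toFinset,
      ((Finset.Icc ⌈α.re - Real.sqrt L⌉ ⌊α.re + Real.sqrt L⌋).card : ℝ) := h1
    _ ≤ ∑ _α ∈ P.roots.toFinset, (2 * Real.sqrt L + 1) :=
        Finset.sum_le_sum fun α _ => card_near _ _ (Real.sqrt_nonneg _)
    _ = P.roots.toFinset.card * (2 * Real.sqrt L + 1) := by rw [Finset.sum_const, nsmul_eq_mul]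
    _ ≤ m * (2 * Real.sqrt L + 1) := mul_le_mul_of_nonneg_right h2 (by positivity)

end Pool.Agent.R219.PV
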