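import Mathlib
import Pool.Agent.R219.PV.Poly

set_option autoImplicit false

/-!
# Values of an arbitrary polynomial among the values of forms with bounded coefficients
-/

namespace Pool.Agent.R219.PV

open Polynomial
open scoped Classical
open Pool.Agent.R366.HE (bin bin_sub short bin_le count_value sz one_le_sz)

/-- **values of a polynomial, for points not larger than the coefficients** -/
lemma values_small {k : ℕ} (s : Fin 2 → ℤ) (hs : IsCoprime (s 0) (s 1)) {A : ℝ}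
    (hA : A = ((max |s 0| |s 1| : ℤ) : ℝ)) (hA1 : 1 ≤ A) {H : ℝ} (hH : 1 ≤ H) (hAH : A ≤ 2 * H)
    (m : ℕ) (G : ℤ[X]) (hG : 2 ≤ G.natDegree) (hm : G.natDegree ≤ m) (T : Finset (Fin (k + 1) → ℤ))
    (hT : ∀ c ∈ T, (∃ y : ℤ, G.eval y = bin k c s) ∧ ∀ i, |(c i : ℝ)| ≤ H) :
    (T.card : ℝ) ≤ (2 * k + 8) ^ k * (5 * m * (k + 1)) * (H ^ (k + 1) / A ^ k) *
      (A ^ k / H) ^ (1 / 2 : ℝ) := by
  have hA0 : 0 < A := by linarith
  have hH0 : 0 < H := by linarith
  set L : ℝ := (k + 1) * (H * A ^ k) with hL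
  have hL1 : 1 ≤ L := by
    have h1 : (1 : ℝ) ≤ A ^ k := one_le_pow₀ hA1
    have h2 : (0 : ℝ) ≤ k := Nat.cast_nonneg k
    have h3 : 1 ≤ H * A ^ k := one_le_mul_of_one_le_of_one_le hH h1
    nlinarith
  -- the values
  let v : (Fin (k + 1) → ℤ) → ℤ := fun c => bin k c s
  have hy : ∀ n ∈ T.image v, ∃ y : ℤ, G.eval y = n := by
    intro n hn
    obtain ⟨c, hc, rfl⟩ := Finset.mem_image.1 hn
    exact (hT c hc).1
  choose! f hf using hy
  have hinj : Set.InjOn f (T.image v : Set ℤ) := by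
    intro n hn n' hn' h
    rw [← hf n hn, ← hf n' hn', h]
  have himg : ((T.image v).card : ℝ) ≤ m * (2 * Real.sqrt L + 1) := by
    rw [← Finset.card_image_of_injOn hinj]
    refine card_poly G m hG hm hL1 _ ?_
    intro y hy
    obtain ⟨n, hn, rfl⟩ := Finset.mem_image.1 hy
    rw [hf n hn]
    obtain ⟨c, hc, rfl⟩ := Finset.mem_image.1 hn
    have e2 := bin_le (s := s) (hT c hc).2
    rw [← hA] at e2
    exact e2
  have hfib : ∀ n ∈ T.image v, ((T.filter fun c => v c = n).card : ℝ) ≤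
      ((2 * k + 8) * (H / A)) ^ k := by
    intro n _
    refine count_value s hs hA hA1 hAH n _ ?_
    intro c hc
    rw [Finset.mem_filter] at hc
    exact ⟨hc.2, (hT c hc.1).2⟩
  have hcard : (T.card : ℝ) ≤ ((2 * k + 8) * (H / A)) ^ k * (T.image v).card := by
    rw [Finset.card_eq_sum_card_image v T]
    push_cast
    calc ∑ n ∈ T.image v, ((T.filter fun c => v c = n).card : ℝ)
        ≤ ∑ n ∈ T.image v, ((2 * (k : ℝ) + 8) * (H / A)) ^ k := Finset.sum_le_sum hfib
      _ = _ := by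
        rw [Finset.sum_const, nsmul_eq_mul]
        ring
  have h1 : m * (2 * Real.sqrt L + 1) ≤ (5 * m * (k + 1)) * Real.sqrt (H * A ^ k) := by
    have e1 : Real.sqrt L = Real.sqrt (k + 1) * Real.sqrt (H * A ^ k) := by
      rw [← Real.sqrt_mul (by positivity), hL]
    have e2 : Real.sqrt ((k : ℝ) + 1) ≤ k + 1 := by
      rw [Real.sqrt_le_left (by positivity)]
      have : (0 : ℝ) ≤ k := Nat.cast_nonneg k
      nlinarith
    have e3 : 1 ≤ Real.sqrt (H * A ^ k) := by
      rw [Real.one_le_sqrt]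
      exact one_le_mul_of_one_le_of_one_le hH (one_le_pow₀ hA1)
    have e4 := mul_le_mul_of_nonneg_right e2 (Real.sqrt_nonneg (H * A ^ k))
    have e5 : (0 : ℝ) ≤ k := Nat.cast_nonneg k
    have e6 : 2 * Real.sqrt L + 1 ≤ 5 * (k + 1) * Real.sqrt (H * A ^ k) := by
      rw [e1]
      nlinarith
    calc m * (2 * Real.sqrt L + 1) ≤ m * (5 * (k + 1) * Real.sqrt (H * A ^ k)) :=
          mul_le_mul_of_nonneg_left e6 (Nat.cast_nonneg m)
      _ = _ := by ring
  have h2 : Real.sqrt (H * A ^ k) = H * (A ^ k / H) ^ (1 / 2 : ℝ) := by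
    rw [← Real.sqrt_eq_rpow]
    have e1 : H * A ^ k = H ^ 2 * (A ^ k / H) := by field_simp
    rw [e1, Real.sqrt_mul (by positivity), Real.sqrt_sq hH0.le]
  calc (T.card : ℝ) ≤ ((2 * k + 8) * (H / A)) ^ k * (T.image v).card := hcard
    _ ≤ ((2 * k + 8) * (H / A)) ^ k * ((5 * m * (k + 1)) * (H * (A ^ k / H) ^ (1 / 2 : ℝ))) := by
        refine mul_le_mul_of_nonneg_left ?_ (by positivity)
        rw [← h2]
        exact himg.trans h1
    _ = _ := by
        rw [mul_pow, div_pow, pow_succ H]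
        ring

/-- **values of a polynomial, for points larger than the coefficients** -/
lemma values_large (k m : ℕ) {ε : ℝ} (hε : 0 < ε) : ∃ C : ℝ, 0 < C ∧
    ∀ (s : Fin 2 → ℤ), IsCoprime (s 0) (s 1) → ∀ A : ℝ, A = ((max |s 0| |s 1| : ℤ) : ℝ) →
    ∀ H : ℝ, 1 ≤ H → 2 * H < A → ∀ (G : ℤ[X]), 2 ≤ G.natDegree → G.natDegree ≤ m →
    ∀ (T : Finset (Fin (k + 1) → ℤ)), (∀ c ∈ T, (∃ y : ℤ, G.eval y = bin k c s) ∧ ∀ i, |(c i : ℝ)| ≤ H) →
    (T.card : ℝ) ≤ C * H ^ (((k : ℝ) + 1) / 2) * A ^ ε := by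
  set η : ℝ := 2 * ε / (k + 1) with hη
  have hη0 : 0 < η := by positivity
  obtain ⟨C, hC, hdiv⟩ := Pool.Agent.H510R2.divisor_bound η hη0
  refine ⟨1 + (m * 5 ^ (k + 1) * (2 * (C * (2 * (k + 1)) ^ η))) ^ (1 / 2 : ℝ), by positivity, ?_⟩
  intro s hs A hA H hH hHA G hG hm T hT
  have hH0 : 0 < H := by linarith
  have hA1 : 1 ≤ A := by linarith
  have hA0 : 0 < A := by linarith
  have hy : ∀ c ∈ T, ∃ y : ℤ, G.eval y = bin k c s := fun c hc => (hT c hc).1
  choose! f hf using hy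
  -- the values determine the form
  have hne : ∀ c ∈ T, ∀ c' ∈ T, c ≠ c' → bin k (fun i => c i - c' i) s ≠ 0 := by
    intro c hc c' hc' hcc h0
    obtain ⟨i, hi⟩ := short s hs _ (by
      intro h
      apply hcc
      funext i
      exact sub_eq_zero.1 (congrFun h i)) h0
    have h5 : A ≤ |((c i - c' i : ℤ) : ℝ)| := by
      rw [hA, ← Int.cast_abs]
      exact_mod_cast hi
    have h6 : |((c i - c' i : ℤ) : ℝ)| ≤ 2 * H := by
      push_cast
      have e1 := (hT c hc).2 i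
      have e2 := (hT c' hc').2 i
      calc |(c i : ℝ) - c' i| ≤ |(c i : ℝ)| + |(c' i : ℝ)| := abs_sub _ _
        _ ≤ 2 * H := by linarith
    linarith
  set N : ℕ := ⌊2 * H⌋₊ with hN
  have hN2 : (N : ℝ) ≤ 2 * H := Nat.floor_le (by positivity)
  set Q : ℝ := (k + 1) * (2 * H * A ^ k) with hQ
  -- differences
  set Δs : Finset (Fin (k + 1) → ℤ) :=
    (Fintype.piFinset fun _ : Fin (k + 1) => Finset.Icc (-(N : ℤ)) N).filter
      (fun e => bin k e s ≠ 0) with hΔs
  let U : (Fin (k + 1) → ℤ) → Finset ℤ := fun e =>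
    (bin k e s).natAbs.divisors.image (fun d : ℕ => (d : ℤ)) ∪
      (bin k e s).natAbs.divisors.image (fun d : ℕ => -(d : ℤ))
  have hU : ∀ e ∈ Δs, ((U e).card : ℝ) ≤ 2 * (C * Q ^ η) := by
    intro e he
    rw [hΔs, Finset.mem_filter, Fintype.mem_piFinset] at he
    have h1 : 1 ≤ (bin k e s).natAbs := Nat.one_le_iff_ne_zero.2 (Int.natAbs_ne_zero.2 he.2)
    have h2 := hdiv _ h1
    have h3 : ((bin k e s).natAbs : ℝ) ≤ Q := by
      have e1 : ∀ i, |(e i : ℝ)| ≤ 2 * H := by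
        intro i
        have e2 := he.1 i
        rw [Finset.mem_Icc, ← abs_le] at e2
        have e3 : |(e i : ℝ)| ≤ N := by exact_mod_cast e2
        exact e3.trans hN2
      have e4 := bin_le (s := s) e1
      rw [← hA] at e4
      rw [Nat.cast_natAbs]
      push_cast
      exact e4
    have h4 : ((U e).card : ℝ) ≤ 2 * ((bin k e s).natAbs.divisors.card : ℝ) := by
      have e1 : (U e).card ≤ (bin k e s).natAbs.divisors.card + (bin k e s).natAbs.divisors.card :=
        (Finset.card_union_le _ _).trans (add_le_add Finset.card_image_le Finset.card_image_le)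
      have e2 : ((U e).card : ℝ) ≤ (bin k e s).natAbs.divisors.card + (bin k e s).natAbs.divisors.card := by
        exact_mod_cast e1
      linarith
    have h5 : (((bin k e s).natAbs : ℕ) : ℝ) ^ η ≤ Q ^ η :=
      Real.rpow_le_rpow (Nat.cast_nonneg _) h3 hη0.le
    have h6 : C * (((bin k e s).natAbs : ℕ) : ℝ) ^ η ≤ C * Q ^ η := mul_le_mul_of_nonneg_left h5 hC.le
    linarith
  -- the pairs
  let Ψ : (Fin (k + 1) → ℤ) × (Fin (k + 1) → ℤ) → (Σ _ : Fin (k + 1) → ℤ, ℤ) := fun p =>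
    ⟨fun i => p.1 i - p.2 i, f p.1 - f p.2⟩
  have hdiff : ∀ c ∈ T, ∀ c' ∈ T, G.eval (f c) - G.eval (f c') = bin k (fun i => c i - c' i) s := by
    intro c hc c' hc'
    rw [bin_sub, hf c hc, hf c' hc']
  have hmaps : ∀ p ∈ T.offDiag, Ψ p ∈ Δs.sigma U := by
    intro p hp
    rw [Finset.mem_offDiag] at hp
    obtain ⟨hc, hc', hcc⟩ := hp
    have h0 := hne _ hc _ hc' hcc
    rw [Finset.mem_sigma, hΔs, Finset.mem_filter, Fintype.mem_piFinset]
    refine ⟨⟨fun i => ?_, h0⟩, ?_⟩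
    · rw [Finset.mem_Icc, ← abs_le]
      have e1 := (hT _ hc).2 i
      have e2 := (hT _ hc').2 i
      have e3 : |((p.1 i - p.2 i : ℤ) : ℝ)| ≤ 2 * H := by
        push_cast
        calc |(p.1 i : ℝ) - p.2 i| ≤ |(p.1 i : ℝ)| + |(p.2 i : ℝ)| := abs_sub _ _
          _ ≤ 2 * H := by linarith
      have e4 : ((|p.1 i - p.2 i|.toNat : ℕ) : ℝ) ≤ 2 * H := by
        have e5 : ((|p.1 i - p.2 i|.toNat : ℤ) : ℝ) = |((p.1 i - p.2 i : ℤ) : ℝ)| := by
          rw [Int.toNat_of_nonneg (abs_nonneg _)]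
          push_cast
          rfl
        rw [← e5] at e3
        exact_mod_cast e3
      have e6 := Nat.le_floor e4
      rw [← hN] at e6
      change |p.1 i - p.2 i| ≤ (N : ℤ)
      have e7 := Int.self_le_toNat (|p.1 i - p.2 i|)
      have e8 : ((|p.1 i - p.2 i|.toNat : ℕ) : ℤ) ≤ N := by exact_mod_cast e6
      linarith
    · have h1 := hdiff _ hc _ hc'
      have h2 : (f p.1 - f p.2) ∣ bin k (fun i => p.1 i - p.2 i) s := by
        rw [← h1]
        exact Polynomial.sub_dvd_eval_sub _ _ _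
      have h3 : (f p.1 - f p.2).natAbs ∈ (bin k (fun i => p.1 i - p.2 i) s).natAbs.divisors := by
        rw [Nat.mem_divisors]
        exact ⟨Int.natAbs_dvd_natAbs.2 h2, Int.natAbs_ne_zero.2 h0⟩
      rw [Finset.mem_union, Finset.mem_image, Finset.mem_image]
      rcases le_total 0 (f p.1 - f p.2) with h | h
      · left
        exact ⟨_, h3, Int.natAbs_of_nonneg h⟩
      · right
        refine ⟨_, h3, ?_⟩
        change -(((f p.1 - f p.2).natAbs : ℕ) : ℤ) = f p.1 - f p.2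
        rw [Int.ofNat_natAbs_of_nonpos h]
        ring
  have key : ∀ c ∈ T, ∀ c' ∈ T, f c = f c' → c = c' := by
    intro c hc c' hc' hfc
    by_contra hcc
    apply hne c hc c' hc' hcc
    rw [← hdiff c hc c' hc', hfc, sub_self]
  have hfibre : ∀ q ∈ Δs.sigma U, (T.offDiag.filter fun p => Ψ p = q).card ≤ m := by
    rintro ⟨e, u⟩ hq
    rw [Finset.mem_sigma, hΔs, Finset.mem_filter] at hq
    have he0 : bin k e s ≠ 0 := hq.1.2
    have hmem : ∀ p ∈ T.offDiag.filter (fun p => Ψ p = ⟨e, u⟩), p.1 ∈ T ∧ p.2 ∈ T ∧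
        (fun i => p.1 i - p.2 i) = e ∧ f p.1 - f p.2 = u := by
      intro p hp
      rw [Finset.mem_filter, Finset.mem_offDiag] at hp
      obtain ⟨⟨h1, h2, -⟩, h3⟩ := hp
      have h4 := (Sigma.mk.injEq _ _ _ _).mp h3
      exact ⟨h1, h2, h4.1, eq_of_heq h4.2⟩
    by_cases hu : u = 0
    · have hempty : T.offDiag.filter (fun p => Ψ p = ⟨e, u⟩) = ∅ := by
        rw [Finset.eq_empty_iff_forall_notMem]
        intro p hp
        obtain ⟨h1, h2, h3, h4⟩ := hmem p hp
        have h5 := hdiff _ h1 _ h2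
        rw [h3, sub_eq_zero.1 (h4.trans hu), sub_self] at h5
        exact he0 h5.symm
      rw [hempty, Finset.card_empty]
      omega
    · have hQ0 := shift_ne G hG u (bin k e s) hu
      have hQd : (G.comp (X + Polynomial.C u) - G - Polynomial.C (bin k e s)).natDegree ≤ m := by
        refine (natDegree_sub_le_of_le (natDegree_sub_le_of_le (m := m) ?_ hm) (n := m) ?_).trans ?_
        · rw [natDegree_comp, natDegree_X_add_C, mul_one]
          exact hm
        · rw [natDegree_C]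
          omega
        · rw [max_self, max_self]
      have hinj : Set.InjOn (fun p : (Fin (k + 1) → ℤ) × (Fin (k + 1) → ℤ) => f p.2)
          (↑(T.offDiag.filter (fun p => Ψ p = ⟨e, u⟩)) : Set _) := by
        intro p hp p' hp' h
        obtain ⟨h1, h2, h3, h4⟩ := hmem p (Finset.mem_coe.1 hp)
        obtain ⟨h1', h2', h3', h4'⟩ := hmem p' (Finset.mem_coe.1 hp')
        have h5 : p.2 = p'.2 := key _ h2 _ h2' h
        refine Prod.ext ?_ h5
        funext i
        have h6 : p.1 i - p.2 i = p'.1 i - p'.2 i := congrFun (h3.trans h3'.symm) i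
        have h7 := congrFun h5 i
        omega
      rw [← Finset.card_image_of_injOn hinj]
      refine le_trans (Finset.card_le_card (t :=
        (G.comp (X + Polynomial.C u) - G - Polynomial.C (bin k e s)).roots.toFinset) ?_)
        ((Multiset.toFinset_card_le _).trans ((card_roots' _).trans hQd))
      intro y hy
      obtain ⟨p, hp, rfl⟩ := Finset.mem_image.1 hy
      obtain ⟨h1, h2, h3, h4⟩ := hmem p hp
      rw [Multiset.mem_toFinset, mem_roots hQ0, IsRoot.def]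
      simp only [eval_sub, eval_comp, eval_add, eval_X, eval_C]
      have h5 := hdiff _ h1 _ h2
      rw [h3] at h5
      have h6 : f p.2 + u = f p.1 := by rw [← h4]; ring
      rw [h6, h5, sub_self]
  have hcount := Finset.card_le_mul_card_image_of_maps_to hmaps m hfibre
  rw [Finset.card_sigma, Finset.offDiag_card] at hcount
  have hΔcard : (Δs.card : ℝ) ≤ (5 * H) ^ (k + 1) := by
    have h1 : Δs.card ≤ (2 * N + 1) ^ (k + 1) := by
      refine (Finset.card_filter_le _ _).trans (le_of_eq ?_)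
      rw [Fintype.card_piFinset]
      simp only [Int.card_Icc, Finset.prod_const, Finset.card_univ, Fintype.card_fin]
      congr 1
      omega
    have h2 : (Δs.card : ℝ) ≤ (2 * (N : ℝ) + 1) ^ (k + 1) := by exact_mod_cast h1
    exact h2.trans (pow_le_pow_left₀ (by positivity) (by linarith) _)
  set τ : ℝ := 2 * (C * Q ^ η) with hτ
  have hQ0 : 0 < Q := by positivity
  have hτ0 : 0 ≤ τ := by positivity
  set M : ℝ := (T.card : ℝ) with hM
  have hMM : M * M - M ≤ (5 * H) ^ (k + 1) * (m * τ) := by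
    have h1 : ((T.card * T.card - T.card : ℕ) : ℝ) ≤ m * ∑ e ∈ Δs, ((U e).card : ℝ) := by
      exact_mod_cast hcount
    rw [Nat.cast_sub (Nat.le_mul_self _), Nat.cast_mul] at h1
    refine h1.trans ?_
    have h2 : ∑ e ∈ Δs, ((U e).card : ℝ) ≤ (5 * H) ^ (k + 1) * τ := by
      calc ∑ e ∈ Δs, ((U e).card : ℝ) ≤ ∑ e ∈ Δs, τ := Finset.sum_le_sum hU
        _ = (Δs.card : ℝ) * τ := by rw [Finset.sum_const, nsmul_eq_mul]
        _ ≤ _ := mul_le_mul_of_nonneg_right hΔcard hτ0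
    calc m * ∑ e ∈ Δs, ((U e).card : ℝ) ≤ m * ((5 * H) ^ (k + 1) * τ) :=
          mul_le_mul_of_nonneg_left h2 (Nat.cast_nonneg m)
      _ = _ := by ring
  have hM1 : M ≤ 1 + ((5 * H) ^ (k + 1) * (m * τ)) ^ (1 / 2 : ℝ) := by
    rw [← Real.sqrt_eq_rpow]
    by_cases h1 : M ≤ 1
    · have := Real.sqrt_nonneg ((5 * H) ^ (k + 1) * (m * τ))
      linarith
    · rw [not_le] at h1
      have h2 : (M - 1) ^ 2 ≤ (5 * H) ^ (k + 1) * (m * τ) := by nlinarith
      have h3 := Real.le_sqrt_of_sq_le h2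
      linarith
  refine hM1.trans ?_
  have hτeq : (5 * H) ^ (k + 1) * (m * τ) ≤ (m * 5 ^ (k + 1) * (2 * (C * (2 * (k + 1)) ^ η))) *
      (H ^ (k + 1) * A ^ (2 * ε)) := by
    have h1 : Q ≤ (2 * (k + 1)) * A ^ (k + 1) := by
      rw [hQ, pow_succ A k]
      have h2 : H ≤ A := by linarith
      have h3 : 0 < A ^ k := by positivity
      have h4 : (0 : ℝ) ≤ k := Nat.cast_nonneg k
      have h5 : H * A ^ k ≤ A * A ^ k := mul_le_mul_of_nonneg_right h2 h3.le
      nlinarith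
    have h2 : Q ^ η ≤ (2 * (k + 1)) ^ η * A ^ (2 * ε) := by
      calc Q ^ η ≤ ((2 * (k + 1)) * A ^ (k + 1)) ^ η := Real.rpow_le_rpow hQ0.le h1 hη0.le
        _ = (2 * (k + 1)) ^ η * (A ^ (k + 1)) ^ η := Real.mul_rpow (by positivity) (by positivity)
        _ = _ := by
            congr 1
            rw [← Real.rpow_natCast, ← Real.rpow_mul hA0.le]
            congr 1
            rw [hη]
            push_cast
            field_simp
    have h3 : τ ≤ 2 * (C * ((2 * (k + 1)) ^ η * A ^ (2 * ε))) := by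
      rw [hτ]
      have := mul_le_mul_of_nonneg_left h2 hC.le
      linarith
    calc (5 * H) ^ (k + 1) * (m * τ) ≤
          (5 * H) ^ (k + 1) * (m * (2 * (C * ((2 * (k + 1)) ^ η * A ^ (2 * ε))))) :=
          mul_le_mul_of_nonneg_left (mul_le_mul_of_nonneg_left h3 (Nat.cast_nonneg m)) (by positivity)
      _ = _ := by rw [mul_pow]; ring
  have h1 : ((5 * H) ^ (k + 1) * (m * τ)) ^ (1 / 2 : ℝ) ≤
      (m * 5 ^ (k + 1) * (2 * (C * (2 * (k + 1)) ^ η))) ^ (1 / 2 : ℝ) *
        (H ^ (((k : ℝ) + 1) / 2) * A ^ ε) := by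
    refine (Real.rpow_le_rpow (by positivity) hτeq (by norm_num)).trans (le_of_eq ?_)
    have e1 : (H ^ (k + 1) * A ^ (2 * ε)) ^ (1 / 2 : ℝ) = H ^ (((k : ℝ) + 1) / 2) * A ^ ε := by
      rw [Real.mul_rpow (by positivity) (by positivity), ← Real.rpow_natCast H,
        ← Real.rpow_mul hH0.le, ← Real.rpow_mul hA0.le]
      congr 2
      · push_cast; ring
      · ring
    rw [Real.mul_rpow (by positivity) (by positivity : (0 : ℝ) ≤ H ^ (k + 1) * A ^ (2 * ε)), e1]
  have h2 : 1 ≤ H ^ (((k : ℝ) + 1) / 2) * A ^ ε :=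
    one_le_mul_of_one_le_of_one_le (Real.one_le_rpow hH (by positivity))
      (Real.one_le_rpow hA1 hε.le)
  calc 1 + ((5 * H) ^ (k + 1) * (m * τ)) ^ (1 / 2 : ℝ) ≤ 1 * (H ^ (((k : ℝ) + 1) / 2) * A ^ ε) +
        (m * 5 ^ (k + 1) * (2 * (C * (2 * (k + 1)) ^ η))) ^ (1 / 2 : ℝ) *
        (H ^ (((k : ℝ) + 1) / 2) * A ^ ε) := by linarith
    _ = _ := by ring

end Pool.Agent.R219.PV
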