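import Mathlib
import Pool.Agent.R219.PV.Val

set_option autoImplicit false

/-!
# Integral and rational points on random perturbations of arbitrary curves
-/

namespace Pool.Agent.R219.PV

open Polynomial
open scoped Classical
open Pool.Agent.R366.HE (bin bin_sub short bin_le count_value sz one_le_sz card_size sum_size sum_int)

/-- one point -/
lemma one_point (k m : ℕ) {ε : ℝ} (hε : 0 < ε) : ∃ C : ℝ, 0 < C ∧
    ∀ (s : Fin 2 → ℤ), IsCoprime (s 0) (s 1) → ∀ H : ℝ, 1 ≤ H →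
    ∀ (G : ℤ[X]), 2 ≤ G.natDegree → G.natDegree ≤ m → ∀ (T : Finset (Fin (k + 1) → ℤ)),
    (∀ c ∈ T, (∃ y : ℤ, G.eval y = bin k c s) ∧ ∀ i, |(c i : ℝ)| ≤ H) →
    (T.card : ℝ) ≤ C * (H ^ ((k : ℝ) + 1 / 2) * (1 / sz s ^ ((k : ℝ) / 2)) +
      H ^ (((k : ℝ) + 1) / 2) * sz s ^ ε) := by
  obtain ⟨C, hC, h⟩ := values_large k m hε
  refine ⟨C + (2 * k + 8) ^ k * (5 * m * (k + 1)), by positivity, fun s hs H hH G hG hm T hT => ?_⟩
  have hA1 := one_le_sz hs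
  have hA0 : 0 < sz s := by linarith
  have hH0 : 0 < H := by linarith
  have e1 : 0 ≤ H ^ ((k : ℝ) + 1 / 2) * (1 / sz s ^ ((k : ℝ) / 2)) := by positivity
  have e2 : 0 ≤ H ^ (((k : ℝ) + 1) / 2) * sz s ^ ε := by positivity
  have e3 : (0 : ℝ) ≤ (2 * k + 8) ^ k * (5 * m * (k + 1)) := by positivity
  by_cases hlt : 2 * H < sz s
  · have h1 := h s hs (sz s) rfl H hH hlt G hG hm T hT
    nlinarith [mul_nonneg hC.le e1, mul_nonneg e3 e1, mul_nonneg e3 e2]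
  · have h1 := values_small s hs (A := sz s) rfl hA1 hH (not_lt.1 hlt) m G hG hm T hT
    have h2 : H ^ (k + 1) / sz s ^ k * (sz s ^ k / H) ^ (1 / 2 : ℝ) =
        H ^ ((k : ℝ) + 1 / 2) * (1 / sz s ^ ((k : ℝ) / 2)) := by
      have f1 : (sz s ^ k / H) ^ (1 / 2 : ℝ) = sz s ^ ((k : ℝ) / 2) / H ^ (1 / 2 : ℝ) := by
        rw [Real.div_rpow (by positivity) hH0.le, ← Real.rpow_natCast (sz s), ← Real.rpow_mul hA0.le]
        congr 2
        ring
      have f2 : sz s ^ k = sz s ^ ((k : ℝ) / 2) * sz s ^ ((k : ℝ) / 2) := by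
        rw [← Real.rpow_add hA0, ← Real.rpow_natCast]
        congr 1
        ring
      have f3 : H ^ (k + 1) = H ^ ((k : ℝ) + 1 / 2) * H ^ (1 / 2 : ℝ) := by
        rw [← Real.rpow_add hH0, ← Real.rpow_natCast]
        congr 1
        push_cast
        ring
      rw [f1, f2, f3]
      have g1 : sz s ^ ((k : ℝ) / 2) ≠ 0 := by positivity
      have g2 : H ^ (1 / 2 : ℝ) ≠ 0 := by positivity
      field_simp
    rw [mul_assoc, h2] at h1
    nlinarith [mul_nonneg hC.le e1, mul_nonneg hC.le e2, mul_nonneg e3 e2]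

/-- **rational points on random perturbations** -/
theorem rational (k m : ℕ) (hk : 5 ≤ k) {ε : ℝ} (hε : 0 < ε) : ∃ C : ℝ, 0 < C ∧
    ∀ H B : ℝ, 1 ≤ H → 1 ≤ B → ∀ (G : (Fin 2 → ℤ) → ℤ[X]) (P : Finset ((Fin (k + 1) → ℤ) × (Fin 2 → ℤ))),
    (∀ p ∈ P, (∀ i, |(p.1 i : ℝ)| ≤ H) ∧ IsCoprime (p.2 0) (p.2 1) ∧
      |(p.2 0 : ℝ)| ≤ B ∧ |(p.2 1 : ℝ)| ≤ B ∧ (2 ≤ (G p.2).natDegree ∧ (G p.2).natDegree ≤ m) ∧
      ∃ y : ℤ, (G p.2).eval y = bin k p.1 p.2) →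
    (P.card : ℝ) ≤ C * (H ^ ((k : ℝ) + 1 / 2) + H ^ (((k : ℝ) + 1) / 2) * B ^ (2 + ε)) := by
  obtain ⟨C, hC, h⟩ := one_point k m hε
  obtain ⟨C₂, hC₂, h₂⟩ := sum_size
  refine ⟨C * (C₂ + 9), by positivity, fun H B hH hB G P hP => ?_⟩
  have hH0 : 0 < H := by linarith
  have hB0 : 0 < B := by linarith
  set N : ℕ := ⌊B⌋₊ with hN
  have hNB : (N : ℝ) ≤ B := Nat.floor_le hB0.le
  set Z : Finset (Fin 2 → ℤ) := (Fintype.piFinset fun _ : Fin 2 => Finset.Icc (-(N : ℤ)) N).filter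
    (fun s => IsCoprime (s 0) (s 1)) with hZ
  have habs : ∀ x : ℤ, |(x : ℝ)| ≤ B ↔ |x| ≤ (N : ℤ) := by
    intro x
    rw [← Int.cast_abs, hN, ← Int.natCast_natAbs, Int.cast_natCast, Nat.cast_le,
      Nat.le_floor_iff hB0.le]
  have hZm : ∀ s : Fin 2 → ℤ, s ∈ Z ↔ IsCoprime (s 0) (s 1) ∧ |s 0| ≤ (N : ℤ) ∧ |s 1| ≤ (N : ℤ) := by
    intro s
    rw [hZ, Finset.mem_filter, Fintype.mem_piFinset, Fin.forall_fin_two, Finset.mem_Icc,
      Finset.mem_Icc, ← abs_le, ← abs_le]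
    tauto
  have hmaps : ∀ p ∈ P, p.2 ∈ Z := by
    intro p hp
    obtain ⟨-, h1, h2, h3, -, -⟩ := hP p hp
    exact (hZm p.2).2 ⟨h1, (habs _).1 h2, (habs _).1 h3⟩
  have hone : ∀ s ∈ Z, ((P.filter fun p => p.2 = s).card : ℝ) ≤
      C * (H ^ ((k : ℝ) + 1 / 2) * (1 / sz s ^ (5 / 2 : ℝ)) + H ^ (((k : ℝ) + 1) / 2) * B ^ ε) := by
    intro s hs
    obtain ⟨h1, h2, h3⟩ := (hZm s).1 hs
    have hs1 := one_le_sz h1
    have hinj : Set.InjOn Prod.fst
        (↑(P.filter fun p => p.2 = s) : Set ((Fin (k + 1) → ℤ) × (Fin 2 → ℤ))) := by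
      intro p hp p' hp' hpp
      have e1 := (Finset.mem_filter.1 (Finset.mem_coe.1 hp)).2
      have e2 := (Finset.mem_filter.1 (Finset.mem_coe.1 hp')).2
      exact Prod.ext hpp (e1.trans e2.symm)
    have hs0 : 0 < sz s := by linarith
    by_cases hemp : (P.filter fun p => p.2 = s) = ∅
    · rw [hemp, Finset.card_empty, Nat.cast_zero]
      positivity
    obtain ⟨p₀, hp₀⟩ := Finset.nonempty_iff_ne_empty.2 hemp
    rw [Finset.mem_filter] at hp₀
    obtain ⟨-, -, -, -, hdeg, -⟩ := hP p₀ hp₀.1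
    rw [hp₀.2] at hdeg
    rw [← Finset.card_image_of_injOn hinj]
    refine (h s h1 H hH (G s) hdeg.1 hdeg.2 _ ?_).trans ?_
    · intro c hc
      obtain ⟨p, hp, rfl⟩ := Finset.mem_image.1 hc
      rw [Finset.mem_filter] at hp
      obtain ⟨g1, -, -, -, -, g5⟩ := hP p hp.1
      rw [hp.2] at g5
      exact ⟨g5, g1⟩
    · have e1 : 1 / sz s ^ ((k : ℝ) / 2) ≤ 1 / sz s ^ (5 / 2 : ℝ) := by
        refine one_div_le_one_div_of_le (by positivity) ?_
        refine Real.rpow_le_rpow_of_exponent_le hs1 ?_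
        have : (5 : ℝ) ≤ k := by exact_mod_cast hk
        linarith
      have e2 : sz s ≤ B := by
        refine le_trans ?_ hNB
        unfold sz
        have : max |s 0| |s 1| ≤ (N : ℤ) := max_le h2 h3
        exact_mod_cast this
      have e3 : sz s ^ ε ≤ B ^ ε := Real.rpow_le_rpow (by linarith) e2 hε.le
      refine mul_le_mul_of_nonneg_left (add_le_add ?_ ?_) hC.le
      · exact mul_le_mul_of_nonneg_left e1 (by positivity)
      · exact mul_le_mul_of_nonneg_left e3 (by positivity)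
  have h3 : (P.card : ℝ) = ∑ s ∈ Z, ((P.filter fun p => p.2 = s).card : ℝ) := by
    rw [Finset.card_eq_sum_card_fiberwise hmaps]
    push_cast
    rfl
  have hZcard : (Z.card : ℝ) ≤ 9 * B ^ 2 := by
    have h4 : Z.card ≤ (2 * N + 1) ^ 2 := by
      refine (Finset.card_filter_le _ _).trans (le_of_eq ?_)
      rw [Fintype.card_piFinset]
      simp only [Int.card_Icc, Finset.prod_const, Finset.card_univ, Fintype.card_fin]
      congr 1
      omega
    have h5 : (Z.card : ℝ) ≤ (2 * (N : ℝ) + 1) ^ 2 := by exact_mod_cast h4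
    have h6 : (2 * (N : ℝ) + 1) ≤ 3 * B := by linarith
    have h7 : (0 : ℝ) ≤ 2 * (N : ℝ) + 1 := by positivity
    nlinarith
  have hBB : B ^ 2 * B ^ ε = B ^ (2 + ε) := by
    rw [Real.rpow_add hB0]
    norm_num
  calc (P.card : ℝ) = ∑ s ∈ Z, ((P.filter fun p => p.2 = s).card : ℝ) := h3
    _ ≤ ∑ s ∈ Z, C * (H ^ ((k : ℝ) + 1 / 2) * (1 / sz s ^ (5 / 2 : ℝ)) +
          H ^ (((k : ℝ) + 1) / 2) * B ^ ε) := Finset.sum_le_sum hone
    _ = C * (H ^ ((k : ℝ) + 1 / 2) * (∑ s ∈ Z, (1 / sz s ^ (5 / 2 : ℝ))) +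
          (Z.card : ℝ) * (H ^ (((k : ℝ) + 1) / 2) * B ^ ε)) := by
        rw [← Finset.mul_sum, Finset.sum_add_distrib, ← Finset.mul_sum, Finset.sum_const,
          nsmul_eq_mul]
    _ ≤ C * (H ^ ((k : ℝ) + 1 / 2) * C₂ + (9 * B ^ 2) * (H ^ (((k : ℝ) + 1) / 2) * B ^ ε)) := by
        refine mul_le_mul_of_nonneg_left (add_le_add ?_ ?_) hC.le
        · exact mul_le_mul_of_nonneg_left (h₂ N Z fun s hs => (hZm s).1 hs) (by positivity)
        · exact mul_le_mul_of_nonneg_right hZcard (by positivity)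
    _ = C * (H ^ ((k : ℝ) + 1 / 2) * C₂ + 9 * (H ^ (((k : ℝ) + 1) / 2) * (B ^ 2 * B ^ ε))) := by ring
    _ ≤ C * (C₂ + 9) * (H ^ ((k : ℝ) + 1 / 2) + H ^ (((k : ℝ) + 1) / 2) * B ^ (2 + ε)) := by
        rw [hBB]
        have e1 : 0 ≤ H ^ ((k : ℝ) + 1 / 2) := by positivity
        have e2 : 0 ≤ H ^ (((k : ℝ) + 1) / 2) * B ^ (2 + ε) := by positivity
        rw [mul_assoc C]
        refine mul_le_mul_of_nonneg_left ?_ hC.le
        nlinarith

/-- **integral points on random perturbations** -/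
theorem integral (k m : ℕ) (hk : 2 ≤ k) {ε : ℝ} (hε : 0 < ε) : ∃ C : ℝ, 0 < C ∧
    ∀ H X : ℝ, 1 ≤ H → 1 ≤ X → ∀ (G : ℤ → ℤ[X]) (P : Finset ((Fin (k + 1) → ℤ) × ℤ)),
    (∀ p ∈ P, (∀ i, |(p.1 i : ℝ)| ≤ H) ∧ |(p.2 : ℝ)| ≤ X ∧
      (2 ≤ (G p.2).natDegree ∧ (G p.2).natDegree ≤ m) ∧
      ∃ y : ℤ, (G p.2).eval y = ∑ i : Fin (k + 1), p.1 i * p.2 ^ (i : ℕ)) →
    (P.card : ℝ) ≤ C * X ^ ε * (H ^ ((k : ℝ) + 1 / 2) + H ^ (((k : ℝ) + 1) / 2) * X) := by
  obtain ⟨C, hC, h⟩ := one_point k m hε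
  obtain ⟨C₂, hC₂, h₂⟩ := sum_int (e := 1 + ε) (by linarith)
  refine ⟨C * (C₂ + 3), by positivity, fun H X hH hX G P hP => ?_⟩
  have hH0 : 0 < H := by linarith
  have hX0 : 0 < X := by linarith
  set N : ℕ := ⌊X⌋₊ with hN
  have hNX : (N : ℝ) ≤ X := Nat.floor_le hX0.le
  have habs : ∀ x : ℤ, |(x : ℝ)| ≤ X ↔ |x| ≤ (N : ℤ) := by
    intro x
    rw [← Int.cast_abs, hN, ← Int.natCast_natAbs, Int.cast_natCast, Nat.cast_le,
      Nat.le_floor_iff hX0.le]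
  have hbin : ∀ (c : Fin (k + 1) → ℤ) (x : ℤ), bin k c ![x, 1] =
      ∑ i : Fin (k + 1), c i * x ^ (i : ℕ) := by
    intro c x
    unfold bin
    simp
  set Z : Finset ℤ := Finset.Icc (-(N : ℤ)) N with hZ
  have hmaps : ∀ p ∈ P, p.2 ∈ Z := by
    intro p hp
    obtain ⟨-, h1, -, -⟩ := hP p hp
    rw [hZ, Finset.mem_Icc, ← abs_le]
    exact (habs _).1 h1
  have hcop : ∀ x : ℤ, IsCoprime ((![x, 1] : Fin 2 → ℤ) 0) ((![x, 1] : Fin 2 → ℤ) 1) := by
    intro x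
    simp [isCoprime_one_right]
  have hone : ∀ x ∈ Z, ((P.filter fun p => p.2 = x).card : ℝ) ≤
      C * (H ^ ((k : ℝ) + 1 / 2) * (X ^ ε * (1 / sz ![x, 1] ^ (1 + ε))) +
        H ^ (((k : ℝ) + 1) / 2) * X ^ ε) := by
    intro x hx
    have hs1 := one_le_sz (hcop x)
    have hinj : Set.InjOn Prod.fst
        (↑(P.filter fun p => p.2 = x) : Set ((Fin (k + 1) → ℤ) × ℤ)) := by
      intro p hp p' hp' hpp
      have e1 := (Finset.mem_filter.1 (Finset.mem_coe.1 hp)).2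
      have e2 := (Finset.mem_filter.1 (Finset.mem_coe.1 hp')).2
      exact Prod.ext hpp (e1.trans e2.symm)
    by_cases hemp : (P.filter fun p => p.2 = x) = ∅
    · rw [hemp, Finset.card_empty, Nat.cast_zero]
      have hs0 : 0 < sz ![x, 1] := by linarith
      positivity
    obtain ⟨p₀, hp₀⟩ := Finset.nonempty_iff_ne_empty.2 hemp
    rw [Finset.mem_filter] at hp₀
    obtain ⟨-, -, hdeg, -⟩ := hP p₀ hp₀.1
    rw [hp₀.2] at hdeg
    rw [← Finset.card_image_of_injOn hinj]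
    refine (h ![x, 1] (hcop x) H hH (G x) hdeg.1 hdeg.2 _ ?_).trans ?_
    · intro c hc
      obtain ⟨p, hp, rfl⟩ := Finset.mem_image.1 hc
      rw [Finset.mem_filter] at hp
      obtain ⟨g1, -, -, g5⟩ := hP p hp.1
      rw [hp.2] at g5
      rw [hbin]
      exact ⟨g5, g1⟩
    · have e2 : sz ![x, 1] ≤ X := by
        rw [hZ, Finset.mem_Icc, ← abs_le] at hx
        have e4 := (habs x).2 hx
        have e5 : sz ![x, 1] = max |(x : ℝ)| 1 := by
          unfold sz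
          simp
        rw [e5]
        exact max_le e4 hX
      have e3 : sz ![x, 1] ^ ε ≤ X ^ ε := Real.rpow_le_rpow (by linarith) e2 hε.le
      have hs0 : 0 < sz ![x, 1] := by linarith
      have e1 : 1 / sz ![x, 1] ^ ((k : ℝ) / 2) ≤ X ^ ε * (1 / sz ![x, 1] ^ (1 + ε)) := by
        have g1 : 1 / sz ![x, 1] ^ ((k : ℝ) / 2) ≤ 1 / sz ![x, 1] := by
          refine one_div_le_one_div_of_le hs0 ?_
          calc sz ![x, 1] = sz ![x, 1] ^ (1 : ℝ) := (Real.rpow_one _).symm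
            _ ≤ _ := Real.rpow_le_rpow_of_exponent_le hs1 (by
                have : (2 : ℝ) ≤ k := by exact_mod_cast hk
                linarith)
        have g2 : 1 / sz ![x, 1] = sz ![x, 1] ^ ε * (1 / sz ![x, 1] ^ (1 + ε)) := by
          rw [Real.rpow_add hs0, Real.rpow_one]
          have : sz ![x, 1] ^ ε ≠ 0 := by positivity
          field_simp
        refine g1.trans (g2.le.trans ?_)
        exact mul_le_mul_of_nonneg_right e3 (by positivity)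
      refine mul_le_mul_of_nonneg_left (add_le_add ?_ ?_) hC.le
      · exact mul_le_mul_of_nonneg_left e1 (by positivity)
      · exact mul_le_mul_of_nonneg_left e3 (by positivity)
  have h3 : (P.card : ℝ) = ∑ x ∈ Z, ((P.filter fun p => p.2 = x).card : ℝ) := by
    rw [Finset.card_eq_sum_card_fiberwise hmaps]
    push_cast
    rfl
  have hZcard : (Z.card : ℝ) ≤ 3 * X := by
    have h4 : Z.card = 2 * N + 1 := by
      rw [hZ, Int.card_Icc]
      omega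
    rw [h4]
    push_cast
    linarith
  calc (P.card : ℝ) = ∑ x ∈ Z, ((P.filter fun p => p.2 = x).card : ℝ) := h3
    _ ≤ ∑ x ∈ Z, C * (H ^ ((k : ℝ) + 1 / 2) * (X ^ ε * (1 / sz ![x, 1] ^ (1 + ε))) +
          H ^ (((k : ℝ) + 1) / 2) * X ^ ε) := Finset.sum_le_sum hone
    _ = C * (H ^ ((k : ℝ) + 1 / 2) * (X ^ ε * (∑ x ∈ Z, (1 / sz ![x, 1] ^ (1 + ε)))) +
          (Z.card : ℝ) * (H ^ (((k : ℝ) + 1) / 2) * X ^ ε)) := by
        rw [← Finset.mul_sum, Finset.sum_add_distrib, ← Finset.mul_sum, ← Finset.mul_sum,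
          Finset.sum_const, nsmul_eq_mul]
    _ ≤ C * (H ^ ((k : ℝ) + 1 / 2) * (X ^ ε * C₂) +
          (3 * X) * (H ^ (((k : ℝ) + 1) / 2) * X ^ ε)) := by
        refine mul_le_mul_of_nonneg_left (add_le_add ?_ ?_) hC.le
        · exact mul_le_mul_of_nonneg_left (mul_le_mul_of_nonneg_left (h₂ N) (by positivity))
            (by positivity)
        · exact mul_le_mul_of_nonneg_right hZcard (by positivity)
    _ = C * X ^ ε * (H ^ ((k : ℝ) + 1 / 2) * C₂ + 3 * (H ^ (((k : ℝ) + 1) / 2) * X)) := by ring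
    _ ≤ C * X ^ ε * ((C₂ + 3) * (H ^ ((k : ℝ) + 1 / 2) + H ^ (((k : ℝ) + 1) / 2) * X)) := by
        have e1 : 0 ≤ H ^ ((k : ℝ) + 1 / 2) := by positivity
        have e2 : 0 ≤ H ^ (((k : ℝ) + 1) / 2) * X := by positivity
        refine mul_le_mul_of_nonneg_left ?_ (by positivity)
        nlinarith
    _ = _ := by ring

end Pool.Agent.R219.PV
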